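import Mathlib

/-!
# Rational multilinear forms: descent, and the products over perfect matchings
-/

set_option autoImplicit false
set_option linter.unusedSectionVars false

open Matrix Module

namespace Pool.Agent.X274.HD

section trace

/-- the trace of an element of a field which acts on a rational vector space -/
theorem trace_of_field {E : Type} [Field E] [Algebra ℚ E] [FiniteDimensional ℚ E] {n N : ℕ}
    (hN : N = n * finrank ℚ E) (ε : E →+* Matrix (Fin N) (Fin N) ℚ) (a : E) :
    (ε a).trace = (n : ℚ) * Algebra.trace ℚ E a := by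
  classical
  let f : E →+* Module.End ℚ (Fin N → ℚ) :=
    ((Matrix.toLinAlgEquiv' : Matrix (Fin N) (Fin N) ℚ ≃ₐ[ℚ] _) :
      Matrix (Fin N) (Fin N) ℚ →+* ((Fin N → ℚ) →ₗ[ℚ] (Fin N → ℚ))).comp ε
  letI : Module E (Fin N → ℚ) := Module.compHom _ f
  have hsm : ∀ (b : E) (v : Fin N → ℚ), b • v = ε b *ᵥ v := fun b v => rfl
  haveI : IsScalarTower ℚ E (Fin N → ℚ) := by
    refine ⟨fun q b v => ?_⟩
    rw [hsm, hsm, Algebra.smul_def, map_mul]
    have h1 : ε (algebraMap ℚ E q) = algebraMap ℚ (Matrix (Fin N) (Fin N) ℚ) q := by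
      have : ε.comp (algebraMap ℚ E) = algebraMap ℚ (Matrix (Fin N) (Fin N) ℚ) :=
        Subsingleton.elim _ _
      exact RingHom.congr_fun this q
    rw [h1, Algebra.algebraMap_eq_smul_one, smul_mul_assoc, one_mul, smul_mulVec]
  haveI : FiniteDimensional E (Fin N → ℚ) := FiniteDimensional.right ℚ E (Fin N → ℚ)
  have h1 : finrank ℚ E * finrank E (Fin N → ℚ) = n * finrank ℚ E := by
    rw [finrank_mul_finrank, finrank_fin_fun, hN]
  have h2 : finrank E (Fin N → ℚ) = n := by
    have h3 : 0 < finrank ℚ E := finrank_pos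
    rw [mul_comm n] at h1
    exact Nat.eq_of_mul_eq_mul_left h3 h1
  let b : Basis (Fin n) E (Fin N → ℚ) := finBasisOfFinrankEq E _ h2
  let c := finBasis ℚ E
  have h3 : (ε a).trace = LinearMap.trace ℚ _ (f a) := by
    show (ε a).trace = LinearMap.trace ℚ _ (Matrix.toLin' (ε a))
    rw [Matrix.trace_toLin'_eq]
  rw [h3, LinearMap.trace_eq_matrix_trace ℚ (c.smulTower b), Matrix.trace]
  have h4 : ∀ ij, (LinearMap.toMatrix (c.smulTower b) (c.smulTower b) (f a)).diag ij =
      (Algebra.leftMulMatrix c a).diag ij.1 := by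
    intro ij
    rw [Matrix.diag_apply, Matrix.diag_apply, LinearMap.toMatrix_apply, Basis.smulTower_repr,
      Basis.smulTower_apply]
    have h5 : f a (c ij.1 • b ij.2) = (a * c ij.1) • b ij.2 := by
      rw [mul_smul]
      rfl
    rw [h5, map_smul, Basis.repr_self, Finsupp.smul_single, Finsupp.single_eq_same,
      smul_eq_mul, mul_one, Algebra.leftMulMatrix_eq_repr_mul]
  rw [Finset.sum_congr rfl fun ij _ => h4 ij, Fintype.sum_prod_type]
  simp only [Finset.sum_const, Finset.card_univ, Fintype.card_fin, nsmul_eq_mul]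
  rw [← Finset.mul_sum, Algebra.trace_eq_matrix_trace c]
  rfl

end trace

section descent

variable {ι : Type} [Fintype ι] {L : Type} [Field L] [CharZero L]

/-- linear combinations of rational vectors with coefficients in a larger field -/
theorem span_descent (S : Set (ι → ℚ)) (v : ι → ℚ)
    (h : (fun i => (v i : L)) ∈
      Submodule.span L ((fun (w : ι → ℚ) (i : ι) => (w i : L)) '' S)) :
    v ∈ Submodule.span ℚ S := by
  classical
  by_contra hv
  obtain ⟨f, hf, hS⟩ := Submodule.exists_dual_map_eq_bot_of_notMem hv inferInstance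
  have hf0 : ∀ w ∈ S, f w = 0 := by
    intro w hw
    have h1 : f w ∈ (Submodule.span ℚ S).map f := ⟨w, Submodule.subset_span hw, rfl⟩
    rw [hS] at h1
    exact h1
  have hfe : ∀ w : ι → ℚ, f w = ∑ i, w i * f (Pi.single i 1) := by
    intro w
    conv_lhs => rw [← Finset.univ_sum_single w, map_sum]
    refine Finset.sum_congr rfl fun i _ => ?_
    rw [← smul_eq_mul, ← map_smul]
    congr 1
    funext j
    by_cases h : j = i
    · subst h
      simp
    · simp [Pi.single_eq_of_ne h]
  let F : (ι → L) →ₗ[L] L := ∑ i, (f (Pi.single i 1) : L) • LinearMap.proj i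
  have hF : ∀ w : ι → ℚ, F (fun i => (w i : L)) = (f w : L) := by
    intro w
    rw [hfe w]
    simp only [F, LinearMap.sum_apply, LinearMap.smul_apply, LinearMap.proj_apply, smul_eq_mul,
      Rat.cast_sum, Rat.cast_mul]
    exact Finset.sum_congr rfl fun i _ => mul_comm _ _
  have h2 : F (fun i => (v i : L)) = 0 := by
    have h3 : Submodule.span L ((fun (w : ι → ℚ) (i : ι) => (w i : L)) '' S) ≤
        LinearMap.ker F := by
      rw [Submodule.span_le]
      rintro _ ⟨w, hw, rfl⟩
      rw [SetLike.mem_coe, LinearMap.mem_ker, hF, hf0 w hw, Rat.cast_zero]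
    exact h3 h
  rw [hF] at h2
  exact hf (by exact_mod_cast h2)

end descent

section forms

variable {L : Type} [Field L] {I : Type} [Fintype I] [DecidableEq I] {N : I → ℕ} {k : ℕ}

/-- the basis vectors -/
def bas (t : Σ i, Fin (N i)) : ∀ i, Fin (N i) → L := Pi.single t.1 (Pi.single t.2 1)

theorem sum_bas (x : ∀ i, Fin (N i) → L) : x = ∑ t : Σ i, Fin (N i), x t.1 t.2 • bas t := by
  rw [← Finset.univ_sigma_univ, Finset.sum_sigma]
  have h1 : ∀ i, ∑ a : Fin (N i), x i a • (bas ⟨i, a⟩ : ∀ i, Fin (N i) → L) =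
      Pi.single i (x i) := by
    intro i
    have h2 : ∀ a, x i a • (bas ⟨i, a⟩ : ∀ i, Fin (N i) → L) =
        Pi.single i (Pi.single a (x i a)) := by
      intro a
      unfold bas
      rw [← Pi.single_smul, ← Pi.single_smul, smul_eq_mul, mul_one]
    rw [Finset.sum_congr rfl fun a _ => h2 a]
    have h3 := (map_sum (LinearMap.single L (fun i => Fin (N i) → L) i)
      (fun a => Pi.single a (x i a)) Finset.univ).symm
    rw [Finset.univ_sum_single] at h3
    exact h3
  rw [Finset.sum_congr rfl fun i _ => h1 i, Finset.univ_sum_single]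

/-- expansion of a multilinear form -/
theorem expand (f : MultilinearMap L (fun _ : Fin k => ∀ i, Fin (N i) → L) L)
    (v : Fin k → ∀ i, Fin (N i) → L) :
    f v = ∑ t : Fin k → Σ i, Fin (N i), f (fun j => bas (t j)) * ∏ j, v j (t j).1 (t j).2 := by
  conv_lhs => rw [show v = fun j => ∑ t : Σ i, Fin (N i), v j t.1 t.2 • bas t from
    funext fun j => sum_bas (v j)]
  rw [f.map_sum]
  refine Finset.sum_congr rfl fun t _ => ?_
  rw [f.map_smul_univ, smul_eq_mul, mul_comm]

/-- the multilinear form with given coefficients -/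
noncomputable def mk (c : (Fin k → Σ i, Fin (N i)) → L) :
    MultilinearMap L (fun _ : Fin k => ∀ i, Fin (N i) → L) L :=
  ∑ t, c t • (MultilinearMap.mkPiAlgebra L (Fin k) L).compLinearMap fun j =>
    (LinearMap.proj (t j).2 : (Fin (N (t j).1) → L) →ₗ[L] L).comp (LinearMap.proj (t j).1)

theorem mk_apply (c : (Fin k → Σ i, Fin (N i)) → L) (v : Fin k → ∀ i, Fin (N i) → L) :
    mk c v = ∑ t, c t * ∏ j, v j (t j).1 (t j).2 := by
  simp [mk, MultilinearMap.sum_apply]

theorem mk_bas (c : (Fin k → Σ i, Fin (N i)) → L) (s : Fin k → Σ i, Fin (N i)) :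
    mk c (fun j => bas (s j)) = c s := by
  classical
  rw [mk_apply, Finset.sum_eq_single s]
  · have : ∀ j, (bas (s j) : ∀ i, Fin (N i) → L) (s j).1 (s j).2 = 1 := fun j => by
      simp [bas]
    simp [this]
  · intro t _ hts
    obtain ⟨j, hj⟩ := Function.ne_iff.1 hts
    have h0 : (bas (s j) : ∀ i, Fin (N i) → L) (t j).1 (t j).2 = 0 := by
      unfold bas
      by_cases h : (t j).1 = (s j).1
      · obtain ⟨p, hp⟩ : ∃ p, p = t j := ⟨_, rfl⟩
        obtain ⟨q, hq⟩ : ∃ q, q = s j := ⟨_, rfl⟩
        rw [← hp, ← hq] at h hj ⊢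
        obtain ⟨i, a⟩ := p
        obtain ⟨i', a'⟩ := q
        simp only at h
        subst h
        rw [Pi.single_eq_same, Pi.single_eq_of_ne]
        rintro rfl
        exact hj rfl
      · rw [Pi.single_eq_of_ne h]
        rfl
    rw [Finset.prod_eq_zero (Finset.mem_univ j) h0, mul_zero]
  · intro h
    exact absurd (Finset.mem_univ _) h

end forms

section matching

variable {L : Type} [Field L] {M : Type} [AddCommGroup M] [Module L M] {k : ℕ}

theorem prod_update (π : Equiv.Perm (Fin k)) (h1 : ∀ j, π (π j) = j) (h2 : ∀ j, π j ≠ j)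
    (B : Fin k → M →ₗ[L] M →ₗ[L] L) (v : Fin k → M) (l : Fin k) (x : M) :
    ∏ j with j < π j, B j (Function.update v l x j) (Function.update v l x (π j)) =
      (if l < π l then B l x (v (π l)) else B (π l) (v (π l)) x) *
        ∏ j ∈ (Finset.univ.filter fun j => j < π j).erase (if l < π l then l else π l),
          B j (v j) (v (π j)) := by
  classical
  obtain ⟨p, hp⟩ : ∃ p, p = if l < π l then l else π l := ⟨_, rfl⟩
  have hpm : p ∈ Finset.univ.filter fun j => j < π j := by
    rw [hp, Finset.mem_filter]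
    refine ⟨Finset.mem_univ _, ?_⟩
    split_ifs with h
    · exact h
    · rw [h1]
      exact lt_of_le_of_ne (not_lt.1 h) (h2 l)
  rw [← hp, ← Finset.mul_prod_erase _ _ hpm]
  congr 1
  · rw [hp]
    split_ifs with h
    · rw [Function.update_self, Function.update_of_ne (h2 l)]
    · rw [h1, Function.update_self, Function.update_of_ne (h2 l)]
  · refine Finset.prod_congr rfl fun j hj => ?_
    rw [Finset.mem_erase, Finset.mem_filter] at hj
    obtain ⟨hjp, -, hlt⟩ := hj
    have hjl : j ≠ l := by
      rintro rfl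
      rw [if_pos hlt] at hp
      exact hjp hp.symm
    have hjl' : π j ≠ l := by
      intro h
      have h3 : π l = j := by rw [← h, h1]
      rw [h3, if_neg (by rw [h] at hlt; exact not_lt.2 hlt.le)] at hp
      exact hjp hp.symm
    rw [Function.update_of_ne hjl, Function.update_of_ne hjl']

/-- the product over a perfect matching -/
noncomputable def prodForm (π : Equiv.Perm (Fin k)) (h1 : ∀ j, π (π j) = j) (h2 : ∀ j, π j ≠ j)
    (B : Fin k → M →ₗ[L] M →ₗ[L] L) : MultilinearMap L (fun _ : Fin k => M) L where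
  toFun v := ∏ j with j < π j, B j (v j) (v (π j))
  map_update_add' := by
    intro inst v l x y
    have : inst = instDecidableEqFin _ := Subsingleton.elim _ _
    subst this
    rw [prod_update π h1 h2, prod_update π h1 h2, prod_update π h1 h2, ← add_mul]
    congr 1
    split_ifs
    · rw [map_add, LinearMap.add_apply]
    · rw [map_add]
  map_update_smul' := by
    intro inst v l c x
    have : inst = instDecidableEqFin _ := Subsingleton.elim _ _
    subst this
    rw [prod_update π h1 h2, prod_update π h1 h2, smul_eq_mul, ← mul_assoc]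
    congr 1
    split_ifs
    · rw [map_smul, LinearMap.smul_apply, smul_eq_mul]
    · rw [map_smul, smul_eq_mul]

end matching

end Pool.Agent.X274.HD
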